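import Pool.Agent.helper98.RS.VRG

/-!
# MP_07c750: row VRC (recursion)
-/

open scoped MatrixGroups ContDiff Topology UpperHalfPlane
open UpperHalfPlane MeasureTheory Filter Set

namespace Pool.Agent.RS

theorem VRC_cont (u : ℍ → ℝ) (hu : Continuous u) (g : SL(2, ℝ)) :
    Continuous fun p : ℝ × ℝ => u ((g * lM p.1 * aM p.2) • I) := by
  obtain ⟨-, -, -, -, -, -, -, -, -, -, ha, hl⟩ := VRG
  exact hu.comp (((continuous_const.mul (hl.comp continuous_fst)).mul (ha.comp continuous_snd)).smul
    continuous_const)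

theorem VRC_contI (u : ℍ → ℝ) (hu : Continuous u) (g : SL(2, ℝ)) (a b : ℝ) :
    Continuous fun v : ℝ => ∫ t in a..b, u ((g * lM v * aM t) • I) :=
  intervalIntegral.continuous_parametric_intervalIntegral_of_continuous' (VRC_cont u hu g) a b

theorem VRC_grp (g : SL(2, ℝ)) (m : ℝ) (hm : 0 < m) (x v t : ℝ) :
    g * lM (m⁻¹ * v + x) * aM (Real.log m + t) = g * lM x * aM (Real.log m) * lM v * aM t := by
  obtain ⟨-, -, -, -, -, -, hs, hl, hc, -⟩ := VRG
  rw [add_comm (m⁻¹ * v) x, hl, hs]
  have h1 : lM (m⁻¹ * v) * aM (Real.log m) = aM (Real.log m) * lM v := by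
    rw [hc, Real.exp_log hm]
    congr 2
    field_simp
  calc g * (lM x * lM (m⁻¹ * v)) * (aM (Real.log m) * aM t)
      = g * lM x * (lM (m⁻¹ * v) * aM (Real.log m)) * aM t := by group
    _ = g * lM x * aM (Real.log m) * lM v * aM t := by rw [h1]; group

theorem VRC_piece (u : ℍ → ℝ) (hu : Continuous u) (g : SL(2, ℝ)) (m : ℝ) (hm : 0 < m) (x S : ℝ) :
    ∫ v in x..(m⁻¹ + x), Real.exp (∫ t in Real.log m..(Real.log m + S), u ((g * lM v * aM t) • I)) =
      m⁻¹ * ∫ v in (0 : ℝ)..1, Real.exp (∫ t in (0 : ℝ)..S,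
        u ((g * lM x * aM (Real.log m) * lM v * aM t) • I)) := by
  have h1 := intervalIntegral.integral_comp_mul_add (a := 0) (b := 1)
    (fun v => Real.exp (∫ t in Real.log m..(Real.log m + S), u ((g * lM v * aM t) • I)))
    (inv_pos.2 hm).ne' x
  rw [mul_zero, zero_add, mul_one, inv_inv, smul_eq_mul] at h1
  have h2 : ∀ v : ℝ, ∫ t in Real.log m..(Real.log m + S), u ((g * lM (m⁻¹ * v + x) * aM t) • I) =
      ∫ t in (0 : ℝ)..S, u ((g * lM x * aM (Real.log m) * lM v * aM t) • I) := by
    intro v
    have h3 := intervalIntegral.integral_comp_add_left (a := 0) (b := S)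
      (fun t => u ((g * lM (m⁻¹ * v + x) * aM t) • I)) (Real.log m)
    rw [add_zero] at h3
    rw [← h3]
    refine intervalIntegral.integral_congr fun t _ => ?_
    change u ((g * lM (m⁻¹ * v + x) * aM (Real.log m + t)) • I) = _
    rw [VRC_grp g m hm]
  simp only [h2] at h1
  rw [h1, ← mul_assoc, inv_mul_cancel₀ hm.ne', one_mul]

theorem VRC : VRC_stmt := by
  intro u m C hu hu1 hm hB n
  have hm0 : (0 : ℝ) < m := by exact_mod_cast hm
  have hm1 : (1 : ℝ) ≤ m := by exact_mod_cast hm
  have hτ : 0 ≤ Real.log m := Real.log_nonneg hm1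
  have hC0 : (0 : ℝ) ≤ (C : ℝ) + Real.exp 1 := by positivity
  induction n with
  | zero =>
    intro g
    simp
  | succ n ih =>
    intro g
    set τ := Real.log (m : ℝ) with hτd
    set A : ℝ → ℝ := fun v => ∫ t in (0 : ℝ)..τ, u ((g * lM v * aM t) • I) with hA
    set D : ℝ → ℝ := fun v => ∫ t in τ..(τ + n * τ), u ((g * lM v * aM t) • I) with hD
    have hAc : Continuous A := VRC_contI u hu g 0 τ
    have hDc : Continuous D := VRC_contI u hu g τ (τ + n * τ)
    have hint : ∀ v a b : ℝ, IntervalIntegrable (fun t => u ((g * lM v * aM t) • I)) volume a b := by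
      intro v a b
      exact ((VRC_cont u hu g).comp (Continuous.prodMk_right v)).intervalIntegrable a b
    have hsplit : ∀ v, ∫ t in (0 : ℝ)..(((n + 1 : ℕ) : ℝ) * τ), u ((g * lM v * aM t) • I) = A v + D v := by
      intro v
      have e : ((n + 1 : ℕ) : ℝ) * τ = τ + n * τ := by push_cast; ring
      rw [e, hA, hD]
      exact (intervalIntegral.integral_add_adjacent_intervals (hint v 0 τ) (hint v τ _)).symm
    simp only [hsplit, Real.exp_add]
    have hfc : Continuous fun v => Real.exp (A v) * Real.exp (D v) :=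
      (Real.continuous_exp.comp hAc).mul (Real.continuous_exp.comp hDc)
    -- the cut
    have hcut : ∫ v in (0 : ℝ)..1, Real.exp (A v) * Real.exp (D v) =
        ∑ k ∈ Finset.range m, ∫ v in ((k : ℝ) / m)..((m : ℝ)⁻¹ + (k : ℝ) / m),
          Real.exp (A v) * Real.exp (D v) := by
      have h1 := intervalIntegral.sum_integral_adjacent_intervals (n := m)
        (a := fun k : ℕ => (k : ℝ) / m) (f := fun v => Real.exp (A v) * Real.exp (D v)) (μ := volume)
        (fun k _ => hfc.intervalIntegrable _ _)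
      have e1 : ((m : ℕ) : ℝ) / m = 1 := div_self hm0.ne'
      simp only [Nat.cast_zero, zero_div] at h1
      rw [e1] at h1
      rw [← h1]
      refine Finset.sum_congr rfl fun k _ => ?_
      congr 1
      push_cast
      field_simp
      ring
    rw [hcut]
    classical
    set B : Finset ℕ := (Finset.range m).filter fun k =>
      ∃ v ∈ Icc ((k : ℝ) / m) ((k + 1 : ℝ) / m), 1 ≤ ∫ t in (0 : ℝ)..τ, u ((g * lM v * aM t) • I) with hBd
    have hBC : B.card ≤ C := hB g B (Finset.filter_subset _ _) fun k hk => (Finset.mem_filter.1 hk).2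
    have hAle : ∀ v, A v ≤ τ := by
      intro v
      have h1 : ∫ t in (0 : ℝ)..τ, u ((g * lM v * aM t) • I) ≤ ∫ t in (0 : ℝ)..τ, (1 : ℝ) :=
        intervalIntegral.integral_mono_on hτ (hint v 0 τ) (by simp) fun t _ => (hu1 _).2
      simpa using h1
    have hpiece : ∀ k ∈ Finset.range m, ∫ v in ((k : ℝ) / m)..((m : ℝ)⁻¹ + (k : ℝ) / m),
        Real.exp (A v) * Real.exp (D v) ≤
          (if k ∈ B then (m : ℝ) else Real.exp 1) * ((m : ℝ)⁻¹ * (C + Real.exp 1) ^ n) := by
      intro k hk
      have hle : (k : ℝ) / m ≤ (m : ℝ)⁻¹ + (k : ℝ) / m := by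
        have := inv_pos.2 hm0
        linarith
      have hc : ∀ v ∈ Icc ((k : ℝ) / m) ((m : ℝ)⁻¹ + (k : ℝ) / m),
          Real.exp (A v) * Real.exp (D v) ≤ (if k ∈ B then (m : ℝ) else Real.exp 1) * Real.exp (D v) := by
        intro v hv
        refine mul_le_mul_of_nonneg_right ?_ (Real.exp_pos _).le
        split_ifs with h
        · calc Real.exp (A v) ≤ Real.exp τ := Real.exp_le_exp.2 (hAle v)
            _ = m := Real.exp_log hm0
        · refine Real.exp_le_exp.2 ?_
          by_contra h1
          push Not at h1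
          apply h
          rw [hBd, Finset.mem_filter]
          refine ⟨hk, v, ⟨hv.1, ?_⟩, h1.le⟩
          refine hv.2.trans (le_of_eq ?_)
          field_simp
          ring
      calc ∫ v in ((k : ℝ) / m)..((m : ℝ)⁻¹ + (k : ℝ) / m), Real.exp (A v) * Real.exp (D v)
          ≤ ∫ v in ((k : ℝ) / m)..((m : ℝ)⁻¹ + (k : ℝ) / m),
            (if k ∈ B then (m : ℝ) else Real.exp 1) * Real.exp (D v) :=
            intervalIntegral.integral_mono_on hle (hfc.intervalIntegrable _ _)
              ((continuous_const.mul (Real.continuous_exp.comp hDc)).intervalIntegrable _ _) hc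
        _ = (if k ∈ B then (m : ℝ) else Real.exp 1) *
            ∫ v in ((k : ℝ) / m)..((m : ℝ)⁻¹ + (k : ℝ) / m), Real.exp (D v) :=
            intervalIntegral.integral_const_mul _ _
        _ ≤ (if k ∈ B then (m : ℝ) else Real.exp 1) * ((m : ℝ)⁻¹ * (C + Real.exp 1) ^ n) := by
            refine mul_le_mul_of_nonneg_left ?_ (by split_ifs <;> positivity)
            rw [hD]
            simp only
            rw [VRC_piece u hu g m hm0 ((k : ℝ) / m) (n * τ)]
            exact mul_le_mul_of_nonneg_left (ih _) (inv_pos.2 hm0).le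
    refine (Finset.sum_le_sum hpiece).trans ?_
    rw [← Finset.sum_mul]
    have hsum : ∑ k ∈ Finset.range m, (if k ∈ B then (m : ℝ) else Real.exp 1) ≤ m * (C + Real.exp 1) := by
      have h1 : ∀ k ∈ Finset.range m, (if k ∈ B then (m : ℝ) else Real.exp 1) ≤
          (if k ∈ B then (m : ℝ) else 0) + Real.exp 1 := by
        intro k _
        split_ifs
        · have := Real.exp_pos 1
          linarith
        · linarith
      refine (Finset.sum_le_sum h1).trans ?_
      rw [Finset.sum_add_distrib, Finset.sum_const, Finset.card_range, nsmul_eq_mul,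
        ← Finset.sum_filter, Finset.sum_const, nsmul_eq_mul, mul_add]
      have h2 : ((Finset.range m).filter fun k => k ∈ B).card ≤ C :=
        (Finset.card_le_card fun k hk => (Finset.mem_filter.1 hk).2).trans hBC
      have h3 : ((((Finset.range m).filter fun k => k ∈ B).card : ℕ) : ℝ) ≤ C := by exact_mod_cast h2
      have := mul_le_mul_of_nonneg_right h3 hm0.le
      linarith
    calc (∑ k ∈ Finset.range m, (if k ∈ B then (m : ℝ) else Real.exp 1)) * ((m : ℝ)⁻¹ * (C + Real.exp 1) ^ n)
        ≤ m * (C + Real.exp 1) * ((m : ℝ)⁻¹ * (C + Real.exp 1) ^ n) :=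
          mul_le_mul_of_nonneg_right hsum (by positivity)
      _ = (C + Real.exp 1) ^ (n + 1) := by
          rw [pow_succ]
          field_simp

end Pool.Agent.RS
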