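import Pool.Agent.helper98.RS.VRG

/-!
# MP_07c750: rows VCT (count), VCL (closed), VMS (rigidity in measure)
-/

open scoped MatrixGroups ContDiff Topology UpperHalfPlane
open UpperHalfPlane MeasureTheory Filter Set

namespace Pool.Agent.RS

theorem VCT_smul (Γ : Subgroup SL(2, ℝ)) (γ : Γ) (z : ℍ) : γ • z = (γ : SL(2, ℝ)) • z := rfl

theorem VCT_fin {Γ : Subgroup SL(2, ℝ)} (hΓ : QU.SurfaceGroup Γ) {K₁ K₂ : Set ℍ} (h1 : IsCompact K₁)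
    (h2 : IsCompact K₂) : {γ : Γ | ∃ z ∈ K₁, γ • z ∈ K₂}.Finite := by
  refine (hΓ.discrete (K₁ ∪ K₂) (h1.union h2)).subset ?_
  rintro γ ⟨z, hz, hγ⟩
  exact ⟨z, Or.inl hz, Or.inr hγ⟩

theorem VCT_re0 {z : ℍ} (hz : z.re = 0) : z = aM (Real.log z.im) • I := by
  have h := VRG.1 (Real.log z.im)
  ext1
  apply Complex.ext
  · exact hz.trans h.1.symm
  · change z.im = (aM (Real.log z.im) • I : ℍ).im
    rw [h.2, Real.exp_log z.im_pos]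

theorem VCT_axis {g₀ h : SL(2, ℝ)} (ha : AxP (g₀⁻¹ * h)) : ∃ s : ℝ, h • I = (g₀ * aM s) • I := by
  have h1 := VRG.2.2.1 (g₀⁻¹ * h) 0 ha
  have h0 : aM 0 = 1 := by
    apply VRG_ext <;> simp [VRG_a00, VRG_a01, VRG_a10, VRG_a11]
  rw [h0, mul_one] at h1
  have h2 := VCT_re0 h1
  refine ⟨Real.log ((g₀⁻¹ * h) • I : ℍ).im, ?_⟩
  rw [mul_smul, ← h2, ← mul_smul, mul_inv_cancel_left]

theorem VCT_pow {Γ : Subgroup SL(2, ℝ)} {g₀ : SL(2, ℝ)} {γ₀ : Γ} {l : ℝ}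
    (h : ∀ t : ℝ, γ₀ • ((g₀ * aM t) • I) = (g₀ * aM (t + l)) • I) (n : ℤ) (t : ℝ) :
    (γ₀ ^ n) • ((g₀ * aM t) • I) = (g₀ * aM (t + n * l)) • I := by
  have hnat : ∀ (n : ℕ) (t : ℝ), (γ₀ ^ n) • ((g₀ * aM t) • I) = (g₀ * aM (t + n * l)) • I := by
    intro n
    induction n with
    | zero => intro t; simp
    | succ n ih =>
      intro t
      rw [pow_succ, mul_smul, h, ih]
      congr 3
      push_cast
      ring
  rcases Int.eq_nat_or_neg n with ⟨k, rfl | rfl⟩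
  · rw [zpow_natCast, hnat]
    push_cast
    rfl
  · rw [zpow_neg, zpow_natCast, inv_smul_eq_iff, hnat]
    congr 3
    push_cast
    ring

theorem VCT_axγ {Γ : Subgroup SL(2, ℝ)} {g₀ : SL(2, ℝ)} {γ₀ : Γ} {l : ℝ}
    (h : ∀ t : ℝ, γ₀ • ((g₀ * aM t) • I) = (g₀ * aM (t + l)) • I) (n : ℤ) :
    AxP (g₀⁻¹ * ((γ₀ ^ n : Γ) : SL(2, ℝ)) * g₀) := by
  have key : ∀ t : ℝ, ((g₀⁻¹ * ((γ₀ ^ n : Γ) : SL(2, ℝ)) * g₀ * aM t) • I : ℍ).re = 0 := by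
    intro t
    have h1 := VCT_pow h n t
    rw [VCT_smul] at h1
    rw [mul_assoc (g₀⁻¹ * _) g₀, mul_smul, mul_smul, h1, ← mul_smul, ← mul_assoc, inv_mul_cancel, one_mul]
    exact (VRG.1 _).1
  exact VRG.2.1 _ 0 1 zero_ne_one (key 0) (key 1)

theorem VCT_red {l : ℝ} (hl : 0 < l) (t : ℝ) : ∃ n : ℤ, t + n * l ∈ Icc 0 l := by
  refine ⟨-⌊t / l⌋, ?_, ?_⟩
  · have := Int.floor_le (t / l)
    rw [le_div_iff₀ hl] at this
    push_cast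
    linarith
  · have := Int.lt_floor_add_one (t / l)
    rw [div_lt_iff₀ hl] at this
    push_cast
    linarith

/-- the compact piece of the geodesic -/
def VCT_K0 (g₀ : SL(2, ℝ)) (l : ℝ) : Set ℍ := (fun s : ℝ => (g₀ * aM s) • I) '' Icc 0 l

theorem VCT_K0c (g₀ : SL(2, ℝ)) (l : ℝ) : IsCompact (VCT_K0 g₀ l) := by
  refine isCompact_Icc.image ?_
  exact (continuous_const.mul VRG.2.2.2.2.2.2.2.2.2.2.1).smul continuous_const

theorem VCT_geo {Γ : Subgroup SL(2, ℝ)} {g₀ : SL(2, ℝ)} {γ₀ : Γ} {l : ℝ} (hl : 0 < l)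
    (h : ∀ t : ℝ, γ₀ • ((g₀ * aM t) • I) = (g₀ * aM (t + l)) • I) :
    geo Γ g₀ = ⋃ γ : Γ, (fun z => γ • z) '' VCT_K0 g₀ l := by
  ext z
  simp only [geo, mem_ofPred_eq, mem_iUnion, mem_image]
  constructor
  · rintro ⟨γ, t, rfl⟩
    obtain ⟨n, hn⟩ := VCT_red hl t
    refine ⟨γ * γ₀ ^ (-n), _, ⟨t + n * l, hn, rfl⟩, ?_⟩
    change (γ * γ₀ ^ (-n)) • ((g₀ * aM (t + n * l)) • I) = _
    rw [mul_smul, ← VCT_pow h n t, zpow_neg, inv_smul_smul]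
  · rintro ⟨γ, x, ⟨s, hs, rfl⟩, rfl⟩
    exact ⟨γ, s, rfl⟩

theorem VCL : VCL_stmt := by
  rintro Γ g₀ hΓ ⟨γ₀, l, hl, h⟩
  refine ⟨?_, ⟨_, 1, 0, rfl⟩, fun γ z => ?_⟩
  · rw [VCT_geo hl h]
    refine LocallyFinite.isClosed_iUnion ?_ fun γ => ?_
    · intro z
      refine ⟨Metric.closedBall z 1, Metric.closedBall_mem_nhds z one_pos, ?_⟩
      refine (VCT_fin hΓ (VCT_K0c g₀ l) (isCompact_closedBall z 1)).subset ?_
      rintro γ ⟨_, ⟨x, hx, rfl⟩, hx2⟩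
      exact ⟨x, hx, hx2⟩
    · exact ((VCT_K0c g₀ l).image (continuous_const_smul (γ : SL(2, ℝ)))).isClosed
  · constructor
    · rintro ⟨δ, t, ht⟩
      refine ⟨γ⁻¹ * δ, t, ?_⟩
      rw [mul_smul, ← ht, inv_smul_smul]
    · rintro ⟨δ, t, ht⟩
      refine ⟨γ * δ, t, ?_⟩
      rw [mul_smul, ← ht]

theorem VCT_union {ι : Type} (S : Finset ι) (A : ι → Set ℝ) (hA : ∀ i, (A i).encard ≤ 2) :
    (⋃ i ∈ S, A i).encard ≤ ((2 * S.card : ℕ) : ℕ∞) := by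
  classical
  induction S using Finset.induction_on with
  | empty => simp
  | insert a s ha ih =>
    rw [Finset.set_biUnion_insert, Finset.card_insert_of_notMem ha]
    refine (Set.encard_union_le _ _).trans ?_
    refine (add_le_add (hA a) ih).trans (le_of_eq ?_)
    push_cast
    ring

theorem VCT_contl : Continuous lM := VRG.2.2.2.2.2.2.2.2.2.2.2
theorem VCT_conta : Continuous aM := VRG.2.2.2.2.2.2.2.2.2.2.1

theorem VCT_R : ∃ R : ℝ, 0 ≤ R ∧ ∀ v ∈ Icc (0 : ℝ) 1, dist (lM v • I : ℍ) I ≤ R := by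
  have hc : Continuous fun v : ℝ => dist (lM v • I : ℍ) I :=
    (VCT_contl.smul continuous_const).dist continuous_const
  obtain ⟨R, hR⟩ := (isCompact_Icc (a := (0 : ℝ)) (b := 1)).bddAbove_image hc.continuousOn
  refine ⟨max R 0, le_max_right _ _, fun v hv => (hR ⟨v, hv, rfl⟩).trans (le_max_left _ _)⟩

theorem VCT : VCT_stmt := by
  rintro Γ g₀ hΓ ⟨γ₀, l, hl, h⟩
  obtain ⟨K, hK, hKc⟩ := hΓ.cocompact
  obtain ⟨R, hR0, hR⟩ := VCT_R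
  have hK' : IsCompact (Metric.cthickening R K) := hK.cthickening
  have hS := VCT_fin hΓ hK' (VCT_K0c g₀ l)
  refine ⟨2 * hS.toFinset.card, fun g => ?_⟩
  obtain ⟨γ₁, hγ₁⟩ := hKc (g • I)
  have hsub : hit Γ g₀ g ⊆ ⋃ γ ∈ hS.toFinset,
      {v : ℝ | AxP (g₀⁻¹ * (γ : SL(2, ℝ)) * ((γ₁ : SL(2, ℝ)) * g) * lM v)} := by
    rintro v ⟨hv, γ, hγ⟩
    have hp : g₀⁻¹ * (γ : SL(2, ℝ)) * g * lM v =
        g₀⁻¹ * ((γ : SL(2, ℝ)) * g * lM v) := by group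
    rw [hp] at hγ
    obtain ⟨s, hs⟩ := VCT_axis hγ
    obtain ⟨n, hn⟩ := VCT_red hl s
    refine mem_iUnion₂.2 ⟨γ₀ ^ n * γ * γ₁⁻¹, ?_, ?_⟩
    · rw [Set.Finite.mem_toFinset]
      refine ⟨((γ₁ : SL(2, ℝ)) * g * lM v) • I, ?_, ?_⟩
      · refine Metric.mem_cthickening_of_dist_le _ (((γ₁ : SL(2, ℝ)) * g) • I) R K ?_ ?_
        · rw [mul_smul]; exact hγ₁
        · rw [mul_smul _ (lM v), dist_smul]
          exact hR v hv
      · refine ⟨s + n * l, hn, ?_⟩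
        change (g₀ * aM (s + n * l)) • I = _
        rw [← VCT_pow h n s, ← hs, VCT_smul, VCT_smul, ← mul_smul, ← mul_smul]
        congr 1
        push_cast
        group
    · change AxP _
      have e : g₀⁻¹ * ((γ₀ ^ n * γ * γ₁⁻¹ : Γ) : SL(2, ℝ)) * ((γ₁ : SL(2, ℝ)) * g) * lM v =
          (g₀⁻¹ * ((γ₀ ^ n : Γ) : SL(2, ℝ)) * g₀) * (g₀⁻¹ * ((γ : SL(2, ℝ)) * g * lM v)) := by
        push_cast
        group
      rw [e]
      exact VRG.2.2.2.1 _ _ (VCT_axγ h n) hγ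
  refine (Set.encard_le_encard hsub).trans ?_
  exact VCT_union _ _ fun γ => VRG.2.2.2.2.2.2.2.2.2.1 _

theorem VMS_count {Γ : Subgroup SL(2, ℝ)} (hΓ : QU.SurfaceGroup Γ) : Countable Γ := by
  have h1 : (⋃ n : ℕ, {γ : Γ | ∃ z ∈ ({I} : Set ℍ), γ • z ∈ compactCovering ℍ n}) = univ := by
    rw [eq_univ_iff_forall]
    intro γ
    obtain ⟨n, hn⟩ := exists_mem_compactCovering (γ • I : ℍ)
    exact mem_iUnion.2 ⟨n, I, rfl, hn⟩
  have h2 : (univ : Set Γ).Countable := by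
    rw [← h1]
    exact countable_iUnion fun n =>
      (VCT_fin hΓ isCompact_singleton (isCompact_compactCovering ℍ n)).countable
  exact countable_univ_iff.1 h2

theorem VMS : VMS_stmt := by
  intro Γ g₀ g T hΓ hv
  by_contra hcon
  push Not at hcon
  have := VMS_count hΓ
  have hsub : {t : ℝ | t ∈ Icc 0 T ∧ (g * aM t) • I ∈ geo Γ g₀} ⊆
      ⋃ γ : Γ, {t : ℝ | ((g₀⁻¹ * (γ : SL(2, ℝ)) * g * aM t) • I : ℍ).re = 0} := by
    rintro t ⟨-, γ, s, hs⟩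
    refine mem_iUnion.2 ⟨γ⁻¹, ?_⟩
    change ((g₀⁻¹ * ((γ⁻¹ : Γ) : SL(2, ℝ)) * g * aM t) • I : ℍ).re = 0
    have e : (g₀⁻¹ * ((γ⁻¹ : Γ) : SL(2, ℝ)) * g * aM t) • I = (aM s • I : ℍ) := by
      have e1 : g₀⁻¹ * ((γ⁻¹ : Γ) : SL(2, ℝ)) * g * aM t =
        g₀⁻¹ * (((γ⁻¹ : Γ) : SL(2, ℝ)) * (g * aM t)) := by group
      rw [e1, mul_smul, mul_smul, hs, ← VCT_smul, inv_smul_smul, ← mul_smul, inv_mul_cancel_left]
    rw [e]
    exact (VRG.1 s).1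
  have hc : (⋃ γ : Γ, {t : ℝ | ((g₀⁻¹ * (γ : SL(2, ℝ)) * g * aM t) • I : ℍ).re = 0}).Countable := by
    refine countable_iUnion fun γ => Set.Subsingleton.countable ?_
    intro t ht t' ht'
    by_contra hne
    exact hcon γ (VRG.2.1 _ t t' hne ht ht')
  have h0 := (hc.mono hsub).measure_zero volume
  rw [h0] at hv
  exact lt_irrefl _ hv

end Pool.Agent.RS
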