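import Pool.Agent.helper29.RS.SpecK
import Pool.Agent.helper62.QU.INV
import Pool.Agent.helper98.RS.VCT

/-!
# MP_07c750: row NR2 (quadratic form)
-/

open scoped MatrixGroups ContDiff Topology UpperHalfPlane ComplexConjugate
open UpperHalfPlane MeasureTheory Filter Set

namespace Pool.Agent.RS

theorem NR2_act : Continuous fun p : SL(2, ℝ) × ℍ => p.1⁻¹ • p.2 :=
  (continuous_fst.inv).smul continuous_snd

theorem NR2_K1 {S K : Set ℍ} (hS : IsCompact S) (hK : IsCompact K) :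
    IsCompact {p : SL(2, ℝ) × ℍ | p.2 ∈ K ∧ p.1⁻¹ • p.2 ∈ S} := by
  have hC : IsCompact {k : SL(2, ℝ) | k • (I : ℍ) ∈ S} := isProperMap_smul_I.isCompact_preimage hS
  have him : IsCompact ((fun q : ℍ × SL(2, ℝ) => (toSL2R q.1 * q.2⁻¹, q.1)) '' (K ×ˢ {k : SL(2, ℝ) | k • (I : ℍ) ∈ S})) :=
    (hK.prod hC).image (((continuous_toSL2R.comp continuous_fst).mul continuous_snd.inv).prodMk continuous_fst)
  have e : {p : SL(2, ℝ) × ℍ | p.2 ∈ K ∧ p.1⁻¹ • p.2 ∈ S} =
      (fun q : ℍ × SL(2, ℝ) => (toSL2R q.1 * q.2⁻¹, q.1)) '' (K ×ˢ {k : SL(2, ℝ) | k • (I : ℍ) ∈ S}) := by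
    ext ⟨g, z⟩
    constructor
    · rintro ⟨h1, h2⟩
      refine ⟨(z, g⁻¹ * toSL2R z), ⟨h1, ?_⟩, ?_⟩
      · change (g⁻¹ * toSL2R z) • (I : ℍ) ∈ S
        rw [mul_smul, toSL2R_smul_I]
        exact h2
      · change (toSL2R z * (g⁻¹ * toSL2R z)⁻¹, z) = (g, z)
        congr 1
        group
    · rintro ⟨⟨x, k⟩, ⟨h1, h2⟩, h3⟩
      have h4 : toSL2R x * k⁻¹ = g := congrArg Prod.fst h3
      have h5 : x = z := congrArg Prod.snd h3
      subst h5
      refine ⟨h1, ?_⟩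
      change g⁻¹ • x ∈ S
      rw [← h4, mul_inv_rev, inv_inv, mul_smul]
      have h6 : (toSL2R x)⁻¹ • x = (I : ℍ) := by
        rw [inv_smul_eq_iff, toSL2R_smul_I]
      rw [h6]
      exact h2
  rw [e]
  exact him

theorem NR2_K2 {S : Set ℍ} {C : Set SL(2, ℝ)} (hS : IsCompact S) (hC : IsCompact C) :
    IsCompact {p : SL(2, ℝ) × ℍ | p.1 ∈ C ∧ p.1⁻¹ • p.2 ∈ S} := by
  have him : IsCompact ((fun q : SL(2, ℝ) × ℍ => (q.1, q.1 • q.2)) '' (C ×ˢ S)) :=
    (hC.prod hS).image (continuous_fst.prodMk (continuous_fst.smul continuous_snd))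
  have e : {p : SL(2, ℝ) × ℍ | p.1 ∈ C ∧ p.1⁻¹ • p.2 ∈ S} =
      (fun q : SL(2, ℝ) × ℍ => (q.1, q.1 • q.2)) '' (C ×ˢ S) := by
    ext ⟨g, z⟩
    constructor
    · rintro ⟨h1, h2⟩
      exact ⟨(g, g⁻¹ • z), ⟨h1, h2⟩, by change (g, g • g⁻¹ • z) = (g, z); rw [smul_inv_smul]⟩
    · rintro ⟨⟨x, k⟩, ⟨h1, h2⟩, h3⟩
      have h4 : x = g := congrArg Prod.fst h3
      have h5 : x • k = z := congrArg Prod.snd h3
      subst h4
      refine ⟨h1, ?_⟩
      change x⁻¹ • z ∈ S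
      rw [← h5, inv_smul_smul]
      exact h2
  rw [e]
  exact him

theorem NR2 (hGLC : GLC_stmt) (hGMG : GMG_stmt) (hGLI : GLI_stmt) (hGRI : GRI_stmt) (hGFD : GFD_stmt)
    (hGBD : GBD_stmt) (hGWB : GWB_stmt) (hNR1 : NR1_stmt) : NR2_stmt := by
  intro Γ F f u hΓ hF hf hfc hu
  have hsc : SecondCountableTopology SL(2, ℝ) := hGLC.2.1
  have hlc : LocallyCompactSpace SL(2, ℝ) := hGLC.1
  have hsf : SigmaFinite mG := hGMG.2.2.1
  have hfcm : IsFiniteMeasureOnCompacts mG := ⟨fun {K} hK => hGMG.2.1 K hK⟩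
  have hcnt : Countable Γ := VMS_count hΓ
  obtain ⟨⟨hdm, -, hdf, Kg, hKg, hdK⟩, -⟩ := hGFD Γ F hΓ hF
  obtain ⟨⟨hWc, hWi⟩, hW2, -⟩ := hGWB Γ f u hΓ hf hfc hu
  set W : SL(2, ℝ) → ℂ := Wf f u with hWd
  set S : Set ℍ := tsupport f with hS
  have hSc : IsCompact S := hfc
  have hfS : ∀ z, z ∉ S → f z = 0 := fun z hz => image_eq_zero_of_notMem_tsupport hz
  have hW1 : ∀ g, W g = ∫ z : ℍ, f (g⁻¹ • z) * u z := by
    intro g
    have := hW2 1 g
    rw [one_mul] at this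
    rw [this, Wf]
    simp only [one_smul]
  -- the function on the product
  set H : SL(2, ℝ) × ℍ → ℂ := fun p => conj (f (p.1⁻¹ • p.2)) * conj (u p.2) * W p.1 with hH
  have hHc : Continuous H :=
    ((Complex.continuous_conj.comp (hf.comp NR2_act)).mul
      (Complex.continuous_conj.comp (hu.1.comp continuous_snd))).mul (hWc.comp continuous_fst)
  have hH0 : ∀ p : SL(2, ℝ) × ℍ, p.1⁻¹ • p.2 ∉ S → H p = 0 := by
    intro p hp
    rw [hH]
    simp only
    rw [hfS _ hp]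
    simp
  have hHinv : ∀ (γ : Γ) (p : SL(2, ℝ) × ℍ), H (γ • p) = H p := by
    rintro γ ⟨g, z⟩
    have e1 : (γ • (g, z)).1 = (γ : SL(2, ℝ)) * g := rfl
    have e2 : (γ • (g, z)).2 = γ • z := rfl
    rw [hH]
    simp only
    rw [e1, e2, hu.2, hWi γ g]
    congr 3
    rw [mul_inv_rev, mul_smul, VCT_smul, inv_smul_smul]
  -- the action on the product
  have hmc : MeasurableConstSMul Γ (SL(2, ℝ) × ℍ) := by
    constructor
    intro γ
    have h1 : Continuous fun p : SL(2, ℝ) × ℍ => ((γ : SL(2, ℝ)) * p.1, (γ : SL(2, ℝ)) • p.2) :=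
      (continuous_const.mul continuous_fst).prodMk (continuous_const.smul continuous_snd)
    exact h1.measurable
  have hsi : SMulInvariantMeasure Γ (SL(2, ℝ) × ℍ) (mG.prod (volume : Measure ℍ)) := by
    constructor
    intro γ s hs
    have h1 : MeasurePreserving (fun g : SL(2, ℝ) => (γ : SL(2, ℝ)) * g) mG mG :=
      ⟨(continuous_const.mul continuous_id).measurable, hGLI γ⟩
    have h2 : MeasurePreserving (fun z : ℍ => (γ : SL(2, ℝ)) • z) (volume : Measure ℍ) volume := by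
      have := QU.INV_a
      exact measurePreserving_smul (γ : SL(2, ℝ)) (volume : Measure ℍ)
    exact (h1.prod h2).measure_preimage hs.nullMeasurableSet
  have hfd1 : IsFundamentalDomain Γ (dG F ×ˢ (univ : Set ℍ)) (mG.prod (volume : Measure ℍ)) := by
    refine IsFundamentalDomain.mk' (hdm.prod MeasurableSet.univ).nullMeasurableSet ?_
    rintro ⟨g, z⟩
    obtain ⟨γ, h1, h2⟩ := hF.uniq (g • I)
    refine ⟨γ, ⟨?_, mem_univ _⟩, ?_⟩
    · change ((γ : SL(2, ℝ)) * g) • (I : ℍ) ∈ F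
      rw [mul_smul]
      exact h1
    · rintro γ' ⟨h3, -⟩
      refine h2 γ' ?_
      have h4 : ((γ' : SL(2, ℝ)) * g) • (I : ℍ) ∈ F := h3
      rw [mul_smul] at h4
      exact h4
  have hfd2 : IsFundamentalDomain Γ ((univ : Set SL(2, ℝ)) ×ˢ F) (mG.prod (volume : Measure ℍ)) := by
    refine IsFundamentalDomain.mk' (MeasurableSet.univ.prod hF.meas).nullMeasurableSet ?_
    rintro ⟨g, z⟩
    obtain ⟨γ, h1, h2⟩ := hF.uniq z
    refine ⟨γ, ⟨mem_univ _, h1⟩, ?_⟩
    rintro γ' ⟨-, h3⟩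
    exact h2 γ' h3
  have hint1 : IntegrableOn H (dG F ×ˢ (univ : Set ℍ)) (mG.prod (volume : Measure ℍ)) := by
    have h1 := (hHc.continuousOn (s := {p : SL(2, ℝ) × ℍ | p.1 ∈ Kg ∧ p.1⁻¹ • p.2 ∈ S})).integrableOn_compact
      (μ := mG.prod (volume : Measure ℍ)) (NR2_K2 hSc hKg)
    refine h1.of_forall_sdiff_eq_zero (hdm.prod MeasurableSet.univ) ?_
    rintro p ⟨⟨hp1, -⟩, hp2⟩
    refine hH0 p fun hcon => hp2 ⟨hdK hp1, hcon⟩
  have hint2 : IntegrableOn H ((univ : Set SL(2, ℝ)) ×ˢ F) (mG.prod (volume : Measure ℍ)) :=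
    (hfd1.integrableOn_iff hfd2 hHinv).1 hint1
  have hunf := hfd1.setIntegral_eq hfd2 hHinv
  rw [setIntegral_prod _ hint1] at hunf
  -- left side
  have hL : ((iR F (fun g => ‖W g‖ ^ 2) : ℝ) : ℂ) = ∫ g in dG F, (∫ z in (univ : Set ℍ), H (g, z)) ∂mG := by
    rw [iR, ← integral_complex_ofReal]
    refine setIntegral_congr_fun hdm fun g _ => ?_
    simp only [Measure.restrict_univ]
    have h1 : ∫ z : ℍ, H (g, z) = (∫ z : ℍ, conj (f (g⁻¹ • z) * u z)) * W g := by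
      rw [← integral_mul_const]
      refine integral_congr_ae (Eventually.of_forall fun z => ?_)
      rw [hH]
      simp only [map_mul]
    rw [h1, integral_conj, ← hW1 g, ← Complex.normSq_eq_conj_mul_self, Complex.normSq_eq_norm_sq]
  rw [hL, hunf]
  -- right side
  have hR : ∫ p in (univ : Set SL(2, ℝ)) ×ˢ F, H p ∂(mG.prod (volume : Measure ℍ)) =
      ∫ z in F, ∫ g, H (g, z) ∂mG := by
    rw [← Measure.prod_restrict, Measure.restrict_univ, integral_prod_symm]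
    rw [← Measure.restrict_univ (μ := mG), Measure.prod_restrict]
    exact hint2
  rw [hR]
  refine setIntegral_congr_fun hF.meas fun z _ => ?_
  have h1 : ∫ g, H (g, z) ∂mG = conj (u z) * ∫ g, (conj (f (g⁻¹ • z)) * W g) ∂mG := by
    rw [← integral_const_mul]
    refine integral_congr_ae (Eventually.of_forall fun g => ?_)
    rw [hH]
    simp only
    ring
  rw [h1]
  congr 1
  -- Fubini
  set G : SL(2, ℝ) × ℍ → ℂ := fun p => conj (f (p.1⁻¹ • z)) * f (p.1⁻¹ • p.2) * u p.2 with hG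
  have hGc : Continuous G :=
    ((Complex.continuous_conj.comp (hf.comp (continuous_fst.inv.smul continuous_const))).mul
      (hf.comp NR2_act)).mul (hu.1.comp continuous_snd)
  set Cz : Set SL(2, ℝ) := {g : SL(2, ℝ) | g⁻¹ • z ∈ S} with hCz
  have hCzc : IsCompact Cz := by
    have h2 := (NR2_K1 hSc (isCompact_singleton (x := z))).image continuous_fst
    refine h2.of_isClosed_subset ?_ ?_
    · exact hSc.isClosed.preimage (continuous_id.inv.smul continuous_const)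
    · intro g hg
      exact ⟨(g, z), ⟨rfl, hg⟩, rfl⟩
  have hGint : Integrable G (mG.prod (volume : Measure ℍ)) := by
    have h2 := (hGc.continuousOn (s := {p : SL(2, ℝ) × ℍ | p.1 ∈ Cz ∧ p.1⁻¹ • p.2 ∈ S})).integrableOn_compact
      (μ := mG.prod (volume : Measure ℍ)) (NR2_K2 hSc hCzc)
    have h3 : IntegrableOn G univ (mG.prod (volume : Measure ℍ)) := by
      refine h2.of_forall_sdiff_eq_zero MeasurableSet.univ ?_
      rintro p ⟨-, hp2⟩
      rw [hG]
      simp only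
      by_cases h4 : p.1⁻¹ • z ∈ S
      · have h5 : p.1⁻¹ • p.2 ∉ S := fun hcon => hp2 ⟨h4, hcon⟩
        rw [hfS _ h5]
        simp
      · rw [hfS _ h4]
        simp
    rwa [integrableOn_univ] at h3
  have hsw := integral_integral_swap (f := fun (g : SL(2, ℝ)) (w : ℍ) => G (g, w)) hGint
  have hA : ∫ g, (conj (f (g⁻¹ • z)) * W g) ∂mG = ∫ g, (∫ w : ℍ, G (g, w)) ∂mG := by
    refine integral_congr_ae (Eventually.of_forall fun g => ?_)
    simp only
    rw [hW1 g, ← integral_const_mul]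
    refine integral_congr_ae (Eventually.of_forall fun w => ?_)
    rw [hG]
    simp only
    ring
  rw [hA, hsw]
  refine integral_congr_ae (Eventually.of_forall fun w => ?_)
  simp only
  rw [kf, ← integral_mul_const]

end Pool.Agent.RS
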