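import Pool.Agent.helper98.RS.VCP
import Pool.Agent.helper98.RS.VRC

/-!
# MP_07c750: rows VIN and VOL
-/

open scoped MatrixGroups ContDiff Topology UpperHalfPlane
open UpperHalfPlane MeasureTheory Filter Set

namespace Pool.Agent.RS

theorem VIN_sc : SecondCountableTopology SL(2, ℝ) := by
  have h1 : SecondCountableTopology (Matrix (Fin 2) (Fin 2) ℝ) :=
    inferInstanceAs (SecondCountableTopology (Fin 2 → Fin 2 → ℝ))
  exact (Topology.IsEmbedding.subtypeVal (p := fun A : Matrix (Fin 2) (Fin 2) ℝ => A.det = 1)).isInducing.secondCountableTopology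

theorem VIN_contF (u : ℍ → ℝ) (hu : Continuous u) (T : ℝ) :
    Continuous fun g : SL(2, ℝ) => Real.exp (∫ t in (0 : ℝ)..T, u ((g * aM t) • I)) := by
  have := VIN_sc
  refine Real.continuous_exp.comp ?_
  refine intervalIntegral.continuous_parametric_intervalIntegral_of_continuous' ?_ 0 T
  exact hu.comp (((continuous_fst.mul (VCT_conta.comp continuous_snd))).smul continuous_const)

theorem VIN : VIN_stmt := by
  intro Γ F u T A hF hfin hRI hu hu1 hT hA
  have hsc := VIN_sc
  set f : SL(2, ℝ) → ℝ := fun g => Real.exp (∫ t in (0 : ℝ)..T, u ((g * aM t) • I)) with hf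
  have hfc : Continuous f := VIN_contF u hu.1 T
  have hfi : InvG Γ f := by
    refine ⟨hfc, fun γ g => ?_⟩
    change Real.exp (∫ t in (0 : ℝ)..T, u (((γ : SL(2, ℝ)) * g * aM t) • I)) =
      Real.exp (∫ t in (0 : ℝ)..T, u ((g * aM t) • I))
    congr 1
    refine intervalIntegral.integral_congr fun t _ => ?_
    change u (((γ : SL(2, ℝ)) * g * aM t) • I) = u ((g * aM t) • I)
    rw [mul_assoc, mul_smul, ← VCT_smul, hu.2]
  have hf0 : ∀ g, 0 ≤ f g := fun g => (Real.exp_pos _).le
  have hfb : ∀ g, f g ≤ Real.exp T := by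
    intro g
    refine Real.exp_le_exp.2 ?_
    have hint : IntervalIntegrable (fun t => u ((g * aM t) • I)) volume 0 T :=
      (hu.1.comp ((continuous_const.mul VCT_conta).smul continuous_const)).intervalIntegrable _ _
    have h1 : ∫ t in (0 : ℝ)..T, u ((g * aM t) • I) ≤ ∫ t in (0 : ℝ)..T, (1 : ℝ) :=
      intervalIntegral.integral_mono_on hT hint (by simp) fun t _ => (hu1 _).2
    simpa using h1
  set μ : Measure SL(2, ℝ) := mG.restrict (dG F) with hμ
  have hμf : IsFiniteMeasure μ := ⟨by rw [hμ, Measure.restrict_apply_univ]; exact hfin⟩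
  have hjc : Continuous fun p : ℝ × SL(2, ℝ) => f (p.2 * lM p.1) :=
    hfc.comp (continuous_snd.mul (VCT_contl.comp continuous_fst))
  have hint2 : Integrable (fun p : ℝ × SL(2, ℝ) => f (p.2 * lM p.1))
      ((volume.restrict (Ioc (0 : ℝ) 1)).prod μ) := by
    refine Integrable.mono' (integrable_const (Real.exp T)) hjc.aestronglyMeasurable ?_
    refine Eventually.of_forall fun p => ?_
    rw [Real.norm_eq_abs, abs_of_nonneg (hf0 _)]
    exact hfb _
  have hswap := integral_integral_swap (f := fun (v : ℝ) (g : SL(2, ℝ)) => f (g * lM v)) hint2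
  have hleft : ∫ v in Ioc (0 : ℝ) 1, ∫ g, f (g * lM v) ∂μ = iR F f := by
    have h1 : ∀ v : ℝ, ∫ g, f (g * lM v) ∂μ = iR F f := fun v => hRI f (lM v) hfi
    simp only [h1]
    simp
  rw [hleft] at hswap
  change iR F f ≤ _
  rw [hswap]
  have hin : ∀ g : SL(2, ℝ), ∫ v in Ioc (0 : ℝ) 1, f (g * lM v) ≤ A := by
    intro g
    rw [← intervalIntegral.integral_of_le zero_le_one]
    exact hA g
  have hint3 : Integrable (fun g => ∫ v in Ioc (0 : ℝ) 1, f (g * lM v)) μ := hint2.integral_prod_right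
  calc ∫ g, (∫ v in Ioc (0 : ℝ) 1, f (g * lM v)) ∂μ ≤ ∫ _, A ∂μ :=
        integral_mono hint3 (integrable_const A) hin
    _ = A * (mG (dG F)).toReal := by
        rw [integral_const, smul_eq_mul, mul_comm]
        congr 1
        rw [Measure.real, hμ, Measure.restrict_apply_univ]

theorem VOL : VOL_stmt := by
  intro Γ F g₀ hΓ hF hCG hfin hRI δ hδ
  obtain ⟨C₀, hC₀⟩ := VCT Γ g₀ hΓ hCG
  obtain ⟨hc, hne, hinv⟩ := VCL Γ g₀ hΓ hCG
  set b : ℝ := (2 * C₀ : ℕ) + Real.exp 1 with hb
  have hb1 : 1 ≤ b := by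
    have h1 : (1 : ℝ) ≤ Real.exp 1 := Real.one_le_exp zero_le_one
    have h2 : (0 : ℝ) ≤ ((2 * C₀ : ℕ) : ℝ) := Nat.cast_nonneg _
    linarith
  set m : ℕ := ⌈Real.exp (Real.log b / δ)⌉₊ + 2 with hm
  have hm2 : (2 : ℝ) ≤ m := by
    rw [hm]; push_cast
    have : (0 : ℝ) ≤ (⌈Real.exp (Real.log b / δ)⌉₊ : ℝ) := Nat.cast_nonneg _
    linarith
  have hm0 : (0 : ℝ) < m := by linarith
  have hm1 : 1 ≤ m := by omega
  set τ : ℝ := Real.log (m : ℝ) with hτ
  have hτ0 : 0 < τ := Real.log_pos (by linarith)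
  have hbτ : Real.log b ≤ δ * τ := by
    have h1 : Real.exp (Real.log b / δ) ≤ m := by
      rw [hm]; push_cast
      have := Nat.le_ceil (Real.exp (Real.log b / δ))
      linarith
    have h2 := Real.log_le_log (Real.exp_pos _) h1
    rw [Real.log_exp, div_le_iff₀ hδ] at h2
    linarith
  obtain ⟨w, hw0, hw⟩ := VCP Γ g₀ C₀ hΓ hCG hC₀ m hm1
  set u : ℍ → ℝ := fun z => max 0 (min 1 (2 - 2 * Metric.infDist z (geo Γ g₀) / w)) with hu
  have huc : Continuous u := by
    rw [hu]
    exact continuous_const.max (continuous_const.min (continuous_const.sub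
      ((continuous_const.mul (Metric.continuous_infDist_pt _)).div_const w)))
  have hu1 : ∀ z, 0 ≤ u z ∧ u z ≤ 1 := fun z => ⟨le_max_left _ _, max_le zero_le_one (min_le_left _ _)⟩
  have hinf : ∀ (γ : Γ) (z : ℍ), Metric.infDist (γ • z) (geo Γ g₀) = Metric.infDist z (geo Γ g₀) := by
    have hle : ∀ (γ : Γ) (z : ℍ), Metric.infDist (γ • z) (geo Γ g₀) ≤ Metric.infDist z (geo Γ g₀) := by
      intro γ z
      refine (Metric.le_infDist hne).2 fun {x} hx => ?_
      have h1 := Metric.infDist_le_dist_of_mem (x := γ • z) ((hinv γ x).2 hx)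
      rwa [VCT_smul, VCT_smul, dist_smul] at h1
    intro γ z
    refine le_antisymm (hle γ z) ?_
    have := hle γ⁻¹ (γ • z)
    rwa [inv_smul_smul] at this
  have huinv : QU.Inv Γ u := by
    refine ⟨huc, fun γ z => ?_⟩
    rw [hu]
    simp only
    rw [hinf]
  have hu_one : ∀ z ∈ Metric.thickening (w / 2) (geo Γ g₀), u z = 1 := by
    intro z hz
    rw [Metric.mem_thickening_iff_infDist_lt hne] at hz
    have h1 : 2 * Metric.infDist z (geo Γ g₀) / w ≤ 1 := by
      rw [div_le_one hw0]; linarith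
    rw [hu]
    simp only
    rw [min_eq_left (by linarith), max_eq_right zero_le_one]
  have hu_zero : ∀ z, z ∉ Metric.thickening w (geo Γ g₀) → u z = 0 := by
    intro z hz
    rw [Metric.mem_thickening_iff_infDist_lt hne, not_lt] at hz
    have h1 : 2 ≤ 2 * Metric.infDist z (geo Γ g₀) / w := by
      rw [le_div_iff₀ hw0]; linarith
    rw [hu]
    simp only
    rw [max_eq_left]
    exact (min_le_right _ _).trans (by linarith)
  -- the recursion applies
  have hbad : ∀ (g : SL(2, ℝ)) (B : Finset ℕ), B ⊆ Finset.range m →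
      (∀ k ∈ B, ∃ v ∈ Icc ((k : ℝ) / m) ((k + 1 : ℝ) / m),
        1 ≤ ∫ t in (0 : ℝ)..Real.log m, u ((g * lM v * aM t) • I)) → B.card ≤ 2 * C₀ := by
    intro g B hB hk
    refine hw g B hB fun k hkB => ?_
    obtain ⟨v, hv, h1⟩ := hk k hkB
    refine ⟨v, hv, ?_⟩
    set x : ℝ → ℍ := fun t => (g * lM v * aM t) • I with hx
    have hxc : Continuous x := (continuous_const.mul VCT_conta).smul continuous_const
    set S : Set ℝ := {t : ℝ | t ∈ Icc 0 (Real.log m) ∧ (g * lM v * aM t) • I ∈ Metric.thickening w (geo Γ g₀)} with hS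
    have hSm : MeasurableSet S :=
      measurableSet_Icc.inter (Metric.isOpen_thickening.measurableSet.preimage hxc.measurable)
    have hSf : volume S ≠ ⊤ := by
      refine ((measure_mono fun t ht => ht.1).trans_lt ?_).ne
      rw [Real.volume_Icc]
      exact ENNReal.ofReal_lt_top
    have h2 : ∫ t in (0 : ℝ)..Real.log m, u (x t) ≤ (volume S).toReal := by
      rw [intervalIntegral.integral_of_le hτ0.le]
      have h3 : ∫ t in Ioc 0 (Real.log m), u (x t) ≤ ∫ t in Ioc 0 (Real.log m), S.indicator (fun _ => (1 : ℝ)) t := by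
        refine setIntegral_mono_on ?_ ?_ measurableSet_Ioc ?_
        · exact ((huc.comp hxc).integrableOn_Icc).mono_set Ioc_subset_Icc_self
        · refine Integrable.indicator ?_ hSm
          exact integrable_const _
        · intro t ht
          by_cases hts : t ∈ S
          · rw [indicator_of_mem hts]
            exact (hu1 _).2
          · rw [indicator_of_notMem hts]
            refine le_of_eq (hu_zero _ fun hcon => hts ⟨⟨ht.1.le, ht.2⟩, hcon⟩)
      refine h3.trans ?_
      rw [integral_indicator hSm, setIntegral_const, smul_eq_mul, mul_one]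
      refine ENNReal.toReal_mono hSf ?_
      exact Measure.restrict_apply_le _ _
    have h3 : (1 : ℝ) ≤ (volume S).toReal := h1.trans h2
    rw [← ENNReal.ofReal_one]
    exact (ENNReal.ofReal_le_iff_le_toReal hSf).2 h3
  have hrec := VRC u m (2 * C₀) huc hu1 hm1 hbad
  refine ⟨w / 2, u, by linarith, huinv, hu1, hu_one, Real.exp (δ * τ) * (mG (dG F)).toReal + 1,
    by positivity, fun T hT => ?_⟩
  set n : ℕ := ⌈T / τ⌉₊ with hn
  have hTn : T ≤ n * τ := by
    have := Nat.le_ceil (T / τ)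
    rwa [div_le_iff₀ hτ0] at this
  have hnT : n * τ ≤ T + τ := by
    have := (Nat.ceil_lt_add_one (div_nonneg hT hτ0.le)).le
    have h1 : (n : ℝ) ≤ T / τ + 1 := this
    have h2 := mul_le_mul_of_nonneg_right h1 hτ0.le
    rw [add_mul, div_mul_cancel₀ _ hτ0.ne', one_mul] at h2
    exact h2
  have hA : ∀ g : SL(2, ℝ), ∫ v in (0 : ℝ)..1, Real.exp (∫ t in (0 : ℝ)..T, u ((g * lM v * aM t) • I)) ≤
      Real.exp (δ * τ) * Real.exp (δ * T) := by
    intro g
    have hcI : ∀ S : ℝ, Continuous fun v : ℝ => Real.exp (∫ t in (0 : ℝ)..S, u ((g * lM v * aM t) • I)) :=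
      fun S => Real.continuous_exp.comp (VRC_contI u huc g 0 S)
    have h1 : ∫ v in (0 : ℝ)..1, Real.exp (∫ t in (0 : ℝ)..T, u ((g * lM v * aM t) • I)) ≤
        ∫ v in (0 : ℝ)..1, Real.exp (∫ t in (0 : ℝ)..(n * τ), u ((g * lM v * aM t) • I)) := by
      refine intervalIntegral.integral_mono_on zero_le_one ((hcI T).intervalIntegrable _ _)
        ((hcI _).intervalIntegrable _ _) fun v _ => Real.exp_le_exp.2 ?_
      have hci : Continuous fun t : ℝ => u ((g * lM v * aM t) • I) :=
        huc.comp ((continuous_const.mul VCT_conta).smul continuous_const)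
      exact intervalIntegral.integral_mono_interval le_rfl hT hTn
        (Eventually.of_forall fun t => (hu1 _).1) (hci.intervalIntegrable _ _)
    refine h1.trans ((hrec n g).trans ?_)
    have hb0 : 0 < b := by linarith
    have h2 : b ^ n = Real.exp (n * Real.log b) := by
      rw [mul_comm, Real.exp_mul, Real.exp_log hb0, Real.rpow_natCast]
    have h3 : ((2 * C₀ : ℕ) : ℝ) + Real.exp 1 = b := rfl
    rw [h3, h2, ← Real.exp_add]
    refine Real.exp_le_exp.2 ?_
    have h4 : (n : ℝ) * Real.log b ≤ n * (δ * τ) := mul_le_mul_of_nonneg_left hbτ (Nat.cast_nonneg n)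
    nlinarith
  have := VIN Γ F u T _ hF hfin hRI huinv hu1 hT hA
  refine this.trans ?_
  have h5 : 0 ≤ (mG (dG F)).toReal := ENNReal.toReal_nonneg
  have h6 : 0 < Real.exp (δ * T) := Real.exp_pos _
  nlinarith [Real.exp_pos (δ * τ)]

end Pool.Agent.RS
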