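import Pool.Agent.helper62.RS.Defs

/-!
# MP_07c750: rare scars, group V (volume of the orbits which stay close to a closed geodesic), rows `rs:X`

Prove `X_stmt` in `Pool/Agent/<seat>/RS/X.lean`, namespace `Pool.Agent.RS`, auxiliary lemmas prefixed `X_`.

Result (row VOL): for a closed geodesic and `δ > 0` there is a tube such that
`∫_{Γ \ G} exp(time in the tube during [0,T]) ≤ C e^{δ T}`.

Plan. `lM v` is the unstable horocyclic flow: `lM v * aM t = aM t * lM (e^t v)`. Cut `[0,1]` in `m` intervals of length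
`1/m = e^{-τ}`, `τ = log m`: all but `2 C₀` of the intervals are *good*, i.e. their points spend time `< 1` in the
tube during `[0, τ]`, where `C₀` (row VCT) does not depend on `m` (the tube does, row VCP). So (row VRC) the integral over
`[0,1]` of `exp(time in the tube during [0, nτ])` is at most `(2 C₀ + e)^n`, and `log (2 C₀ + e) ≤ δ τ` for large `m`.
-/

open scoped MatrixGroups ContDiff Topology UpperHalfPlane
open UpperHalfPlane MeasureTheory Filter Set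

namespace Pool.Agent.RS

/-- `h` maps the imaginary axis to itself -/
def AxP (h : SL(2, ℝ)) : Prop :=
  (h.1 0 1 = 0 ∧ h.1 1 0 = 0) ∨ (h.1 0 0 = 0 ∧ h.1 1 1 = 0)

/-- the geodesic `t ↦ g₀ aM(t) i` is a closed geodesic of `Γ \ ℍ` -/
def CG (Γ : Subgroup SL(2, ℝ)) (g₀ : SL(2, ℝ)) : Prop :=
  ∃ (γ : Γ) (l : ℝ), 0 < l ∧ ∀ t : ℝ, γ • ((g₀ * aM t) • I) = (g₀ * aM (t + l)) • I

/-- the union of all the lifts of the geodesic `t ↦ g₀ aM(t) i` of `Γ \ ℍ` -/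
def geo (Γ : Subgroup SL(2, ℝ)) (g₀ : SL(2, ℝ)) : Set ℍ :=
  {z | ∃ (γ : Γ) (t : ℝ), z = γ • ((g₀ * aM t) • I)}

/-- the parameters `v ∈ [0,1]` for which the orbit of `g lM(v)` is one of the lifts (in one of the two directions) -/
def hit (Γ : Subgroup SL(2, ℝ)) (g₀ g : SL(2, ℝ)) : Set ℝ :=
  {v | v ∈ Icc (0 : ℝ) 1 ∧ ∃ γ : Γ, AxP (g₀⁻¹ * (γ : SL(2, ℝ)) * g * lM v)}

/-- **Row VRG** (2x2 matrices). `aM t • I` is the point `e^t i` and for `h = [[p,q],[c,d]]` the real part of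
`h (e^t i) = (p e^t i + q)/(c e^t i + d)` is `(p c e^{2t} + q d)/|c e^t i + d|²`; if `p c X + q d = 0` for two different `X` then
`p c = q d = 0`, and `p d - q c = 1` leaves `q = c = 0` or `p = d = 0`. `AxP` is closed under products and inverses.
Commutation: matrices. The lower left and upper left entries of `h * lM v` are `c + v d` and `p + v q`, the others
are `d` and `q`: diagonal forces `v = -c/d` (`d ≠ 0` as `q = 0`), antidiagonal forces `d = 0`, `v = -p/q`. -/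
def VRG_stmt : Prop :=
  (∀ t : ℝ, (aM t • I : ℍ).re = 0 ∧ (aM t • I : ℍ).im = Real.exp t) ∧
  (∀ (h : SL(2, ℝ)) (t t' : ℝ), t ≠ t' → ((h * aM t) • I : ℍ).re = 0 → ((h * aM t') • I : ℍ).re = 0 → AxP h) ∧
  (∀ (h : SL(2, ℝ)) (t : ℝ), AxP h → ((h * aM t) • I : ℍ).re = 0) ∧
  (∀ h h' : SL(2, ℝ), AxP h → AxP h' → AxP (h * h')) ∧ (∀ h : SL(2, ℝ), AxP h → AxP h⁻¹) ∧
  (∀ t : ℝ, AxP (aM t)) ∧ (∀ s t : ℝ, aM (s + t) = aM s * aM t) ∧ (∀ u v : ℝ, lM (u + v) = lM u * lM v) ∧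
  (∀ v t : ℝ, lM v * aM t = aM t * lM (Real.exp t * v)) ∧
  (∀ h : SL(2, ℝ), {v : ℝ | AxP (h * lM v)}.encard ≤ 2) ∧
  Continuous aM ∧ Continuous lM

/-- **Row VCT** (from VRG). Proof. Let `γ₀`, `l` be as in `CG`, `K₀ = {(g₀ aM s) • I | 0 ≤ s ≤ l}` (compact). By `CG` and
VRG, `AxP (g₀⁻¹ γ₀ g₀)`, so `AxP (g₀⁻¹ γ₀^n g₀)` for `n : ℤ`, and `γ₀^n • ((g₀ aM t) • I) = (g₀ aM (t + n l)) • I`. Let
`K` be compact with `Γ K = ℍ` (`SurfaceGroup.cocompact`) and `K'` the closed `R`-neighbourhood of `K` (compact, `ℍ` is proper),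
where `dist (lM v • I) I ≤ R` for `v ∈ [0,1]`. `hit Γ g₀ (γ * g) = hit Γ g₀ g` for `γ ∈ Γ`, so we may suppose `g • I ∈ K`; then
`(g * lM v) • I ∈ K'`. If `AxP (g₀⁻¹ γ g lM v)` then `(γ g lM v) • I` is `g₀` applied to a point of the imaginary axis, so equal to
`(g₀ aM s) • I`, and `n` with `s + n l ∈ [0, l]` gives `γ₀^n γ ∈ S = {γ' : Γ | ∃ z ∈ K', γ' • z ∈ K₀}`, a finite set (`SurfaceGroup.discrete` for
`K' ∪ K₀`), and `AxP (g₀⁻¹ γ₀^n γ g lM v)`. So `hit Γ g₀ g` is contained in the union over `γ' ∈ S` of sets with at most two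
elements (VRG): `C₀ = 2 |S|`. -/
def VCT_stmt : Prop := ∀ (Γ : Subgroup SL(2, ℝ)) (g₀ : SL(2, ℝ)), QU.SurfaceGroup Γ → CG Γ g₀ →
  ∃ C₀ : ℕ, ∀ g : SL(2, ℝ), (hit Γ g₀ g).encard ≤ C₀

/-- **Row VCL**. Proof. `geo = ⋃ γ • K₀` with `K₀` compact as in VCT. If `z_j → z`, `z_j ∈ γ_j • K₀`, all the `z_j` and `z` are in a
compact set `K₁`, so `γ_j⁻¹` is in the finite set `{γ | ∃ x ∈ K₁, γ • x ∈ K₀}` (`SurfaceGroup.discrete` for `K₀ ∪ K₁`); a subsequence has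
constant `γ_j = γ` and `z ∈ γ • K₀` (closed). -/
def VCL_stmt : Prop := ∀ (Γ : Subgroup SL(2, ℝ)) (g₀ : SL(2, ℝ)), QU.SurfaceGroup Γ → CG Γ g₀ →
  IsClosed (geo Γ g₀) ∧ (geo Γ g₀).Nonempty ∧ ∀ (γ : Γ) (z : ℍ), γ • z ∈ geo Γ g₀ ↔ z ∈ geo Γ g₀

/-- **Row VMS** (from VRG; `Γ` is countable by `QU.DOB_stmt`, or from `discrete`: `ℍ` is `σ`-compact). Proof. If `(g aM t) • I` is in `geo`
there is `γ : Γ` with `(γ g aM t) • I = (g₀ aM s) • I`, so `(g₀⁻¹ γ g aM t) • I` has real part `0`. If no `h = g₀⁻¹ γ g` satisfies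
`AxP` then for every `γ` there is at most one such `t` (VRG), so the set of the `t` is countable. -/
def VMS_stmt : Prop := ∀ (Γ : Subgroup SL(2, ℝ)) (g₀ g : SL(2, ℝ)) (T : ℝ), QU.SurfaceGroup Γ →
  0 < volume {t : ℝ | t ∈ Icc 0 T ∧ (g * aM t) • I ∈ geo Γ g₀} →
    ∃ γ : Γ, AxP (g₀⁻¹ * (γ : SL(2, ℝ)) * g)

/-- **Row VCP** (compactness; from VRG, VCL, VMS). Proof. If not, then for `w = 1/(j+1)` there are `g_j`, `B_j` with `2 C₀ + 1 ≤ |B_j|` and points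
`v_{j,k}`. By invariance (`geo` is invariant, so are the thickenings) `g_j • I` is in a compact set `K`, and the `g_j` are in the
compact set `{g | g • I ∈ K}` (closed; entries bounded: `|c i + d|² = 1/im (g • I)` and `|a i + b|² = |g • I|² |c i + d|²`); for a
subsequence `B_j = B` is constant, `g_j → g`, `v_{j,k} → v_k ∈ [k/m, (k+1)/m]`. For every `t`: if `(g_j lM(v_{j,k}) aM t) • I` is in the
`1/(j+1)`-thickening for infinitely many `j` then `(g lM(v_k) aM t) • I ∈ geo` (closed). So by the reverse Fatou lemma (limsup of measures of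
subsets of `Icc 0 τ` is at most the measure of the limsup) `1 ≤ volume {t ∈ [0,τ] | (g lM(v_k) aM t) • I ∈ geo}` and `v_k ∈ hit Γ g₀ g` by
VMS (for `g * lM v_k`). Every `v` is in at most two of the intervals `[k/m, (k+1)/m]`, so `|B| ≤ 2 C₀`. -/
def VCP_stmt : Prop := ∀ (Γ : Subgroup SL(2, ℝ)) (g₀ : SL(2, ℝ)) (C₀ : ℕ), QU.SurfaceGroup Γ → CG Γ g₀ →
  (∀ g : SL(2, ℝ), (hit Γ g₀ g).encard ≤ C₀) → ∀ m : ℕ, 1 ≤ m → ∃ w : ℝ, 0 < w ∧
  ∀ (g : SL(2, ℝ)) (B : Finset ℕ), B ⊆ Finset.range m →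
    (∀ k ∈ B, ∃ v ∈ Icc ((k : ℝ) / m) ((k + 1 : ℝ) / m),
      1 ≤ volume {t : ℝ | t ∈ Icc 0 (Real.log m) ∧
        (g * lM v * aM t) • I ∈ Metric.thickening w (geo Γ g₀)}) → B.card ≤ 2 * C₀

/-- **Row VRC** (recursion; from VRG). Everything is continuous. Proof by induction on `n`. `τ = log m`, `e^τ = m`. The integral over
`[0,1]` is the sum over `k < m` of the integrals over `I_k = [k/m, (k+1)/m]`; `∫_0^{(n+1)τ} = ∫_0^τ + ∫_τ^{(n+1)τ}`. Let `B` be the set of the `k < m`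
for which some `v ∈ I_k` has `∫_0^τ ≥ 1`; on `I_k` the factor `exp ∫_0^τ` is `≤ e` if `k ∉ B` and `≤ e^τ = m` always. For the other factor
`v = k/m + v'/m`: `lM v * aM (τ + t) = lM (k/m) * aM τ * lM v' * aM t` (VRG), so `∫_{I_k} exp ∫_τ^{(n+1)τ} = (1/m) ∫_0^1 exp (∫_0^{nτ} u((g' lM(v') aM t) • I) dt) dv'`
with `g' = g * lM (k/m) * aM τ`, which is `≤ (1/m) (C + e)^n`. Sum: `(C m + m e)(1/m)(C+e)^n`. -/
def VRC_stmt : Prop := ∀ (u : ℍ → ℝ) (m C : ℕ), Continuous u → (∀ z, 0 ≤ u z ∧ u z ≤ 1) → 1 ≤ m →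
  (∀ (g : SL(2, ℝ)) (B : Finset ℕ), B ⊆ Finset.range m →
    (∀ k ∈ B, ∃ v ∈ Icc ((k : ℝ) / m) ((k + 1 : ℝ) / m),
      1 ≤ ∫ t in (0 : ℝ)..Real.log m, u ((g * lM v * aM t) • I)) → B.card ≤ C) →
  ∀ (n : ℕ) (g : SL(2, ℝ)),
    ∫ v in (0 : ℝ)..1, Real.exp (∫ t in (0 : ℝ)..(n * Real.log m), u ((g * lM v * aM t) • I)) ≤
      (C + Real.exp 1) ^ n

/-- **Row VIN** (integration over `Γ \ G`). `RI` is the right invariance of the integral over `dG F` (proved in another group). Proof.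
`f(g) = exp ∫_0^T u((g aM t) • I) dt` is continuous, `Γ`-invariant and bounded by `e^T`; `∫_{dG F} f = ∫_{dG F} f(g lM v)` for every `v`; integrate over `v ∈ [0,1]`
and use Fubini (`mG (dG F) < ∞`, bounded continuous integrand). -/
def VIN_stmt : Prop := ∀ (Γ : Subgroup SL(2, ℝ)) (F : Set ℍ) (u : ℍ → ℝ) (T A : ℝ), QU.NiceDom Γ F →
  mG (dG F) < ⊤ →
  (∀ (f : SL(2, ℝ) → ℝ) (x : SL(2, ℝ)), InvG Γ f → iR F (fun g => f (g * x)) = iR F f) →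
  QU.Inv Γ u → (∀ z, 0 ≤ u z ∧ u z ≤ 1) → 0 ≤ T →
  (∀ g : SL(2, ℝ), ∫ v in (0 : ℝ)..1, Real.exp (∫ t in (0 : ℝ)..T, u ((g * lM v * aM t) • I)) ≤ A) →
    iR F (fun g => Real.exp (∫ t in (0 : ℝ)..T, u ((g * aM t) • I))) ≤ A * (mG (dG F)).toReal

/-- **Row VOL** (from VCT, VCL, VCP, VRC, VIN). Proof. `C₀` from VCT; choose `m ≥ 2` with `log (2 C₀ + e) ≤ δ log m`, `w'` from VCP, `w = w'/2`,
`u z = max 0 (min 1 (2 - 2 * Metric.infDist z (geo Γ g₀) / w'))`: continuous, invariant (`Γ` acts by isometries), `1` on the `w`-thickening, `0` off the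
`w'`-thickening; if `1 ≤ ∫_0^τ u` then the time in the `w'`-thickening is at least `1` (`u ≤ 1`). So VRC applies with `C = 2 C₀`. For `T ≥ 0` let
`n = ⌈T/τ⌉`: the integral up to `T` is at most the integral up to `n τ`, `(2 C₀ + e)^n ≤ e^{δ τ n} ≤ e^{δ τ} e^{δ T}`; VIN. -/
def VOL_stmt : Prop := ∀ (Γ : Subgroup SL(2, ℝ)) (F : Set ℍ) (g₀ : SL(2, ℝ)), QU.SurfaceGroup Γ →
  QU.NiceDom Γ F → CG Γ g₀ → mG (dG F) < ⊤ →
  (∀ (f : SL(2, ℝ) → ℝ) (x : SL(2, ℝ)), InvG Γ f → iR F (fun g => f (g * x)) = iR F f) →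
  ∀ δ : ℝ, 0 < δ → ∃ (w : ℝ) (u : ℍ → ℝ), 0 < w ∧ QU.Inv Γ u ∧ (∀ z, 0 ≤ u z ∧ u z ≤ 1) ∧
    (∀ z ∈ Metric.thickening w (geo Γ g₀), u z = 1) ∧ ∃ C : ℝ, 0 < C ∧ ∀ T : ℝ, 0 ≤ T →
      iR F (fun g => Real.exp (∫ t in (0 : ℝ)..T, u ((g * aM t) • I))) ≤ C * Real.exp (δ * T)

end Pool.Agent.RS
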