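import Pool.Agent.helper98.RS.VCT

/-!
# MP_07c750: row VCP (compactness)
-/

open scoped MatrixGroups ContDiff Topology UpperHalfPlane
open UpperHalfPlane MeasureTheory Filter Set

namespace Pool.Agent.RS

/-- the time in the tube -/
def VCP_S (Γ : Subgroup SL(2, ℝ)) (g₀ : SL(2, ℝ)) (τ w : ℝ) (g : SL(2, ℝ)) (v : ℝ) : Set ℝ :=
  {t : ℝ | t ∈ Icc 0 τ ∧ (g * lM v * aM t) • I ∈ Metric.thickening w (geo Γ g₀)}

theorem VCP_cont : Continuous fun p : (SL(2, ℝ) × ℝ) × ℝ => (p.1.1 * lM p.1.2 * aM p.2) • (I : ℍ) :=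
  (((continuous_fst.comp continuous_fst).mul (VCT_contl.comp (continuous_snd.comp continuous_fst))).mul
    (VCT_conta.comp continuous_snd)).smul continuous_const

theorem VCP_unif {α : Type} [TopologicalSpace α] (X : α × ℝ → ℍ) (hX : Continuous X) (p₀ : α) (τ w : ℝ)
    (hw : 0 < w) : ∀ᶠ p in 𝓝 p₀, ∀ t ∈ Icc 0 τ, dist (X (p, t)) (X (p₀, t)) < w := by
  refine isCompact_Icc.eventually_forall_of_forall_eventually fun t _ => ?_
  have hd : Continuous fun p : α × ℝ => dist (X (p.1, p.2)) (X (p₀, p.2)) :=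
    hX.dist (hX.comp (continuous_const.prodMk continuous_snd))
  refine hd.continuousAt.eventually_lt continuousAt_const ?_
  rw [dist_self]
  exact hw

/-- the local lemma -/
theorem VCP_loc {Γ : Subgroup SL(2, ℝ)} {g₀ : SL(2, ℝ)} (hc : IsClosed (geo Γ g₀)) (hne : (geo Γ g₀).Nonempty)
    (τ : ℝ) (g : SL(2, ℝ)) (v : ℝ)
    (h : volume {t : ℝ | t ∈ Icc 0 τ ∧ (g * lM v * aM t) • I ∈ geo Γ g₀} < 1) :
    ∀ᶠ z : (SL(2, ℝ) × ℝ) × ℝ in 𝓝 ((g, 0), v), volume (VCP_S Γ g₀ τ z.1.2 z.1.1 z.2) < 1 := by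
  set x : ℝ → ℍ := fun t => (g * lM v * aM t) • I with hx
  have hxc : Continuous x := (continuous_const.mul VCT_conta).smul continuous_const
  set A : ℕ → Set ℝ := fun n => {t : ℝ | t ∈ Icc 0 τ ∧ Metric.infDist (x t) (geo Γ g₀) ≤ 2 / (n + 1)} with hA
  have hAm : ∀ n, IsClosed (A n) := fun n =>
    isClosed_Icc.inter (isClosed_le ((Metric.continuous_infDist_pt _).comp hxc) continuous_const)
  have hanti : Antitone A := by
    intro n n' hn t ht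
    refine ⟨ht.1, ht.2.trans ?_⟩
    have : (n : ℝ) ≤ n' := by exact_mod_cast hn
    gcongr
  have hfin : ∃ n, volume (A n) ≠ ⊤ := by
    refine ⟨0, ((measure_mono fun t ht => ht.1).trans_lt ?_).ne⟩
    rw [Real.volume_Icc]
    exact ENNReal.ofReal_lt_top
  have hlim := tendsto_measure_iInter_atTop (μ := volume) (fun n => (hAm n).measurableSet.nullMeasurableSet)
    hanti hfin
  have hInt : (⋂ n, A n) = {t : ℝ | t ∈ Icc 0 τ ∧ (g * lM v * aM t) • I ∈ geo Γ g₀} := by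
    ext t
    rw [mem_iInter]
    constructor
    · intro ht
      refine ⟨(ht 0).1, ?_⟩
      rw [hc.mem_iff_infDist_zero hne]
      have h0 : Metric.infDist (x t) (geo Γ g₀) ≤ 0 := by
        refine le_of_forall_pos_le_add fun ε hε => ?_
        obtain ⟨n, hn⟩ := exists_nat_gt (2 / ε)
        have h1 := (ht n).2
        refine h1.trans ?_
        rw [zero_add, div_le_iff₀ (by positivity)]
        rw [div_lt_iff₀ hε] at hn
        nlinarith
      exact le_antisymm h0 Metric.infDist_nonneg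
    · rintro ⟨ht, ht2⟩ n
      refine ⟨ht, ?_⟩
      have := (hc.mem_iff_infDist_zero hne).1 ht2
      change Metric.infDist ((g * lM v * aM t) • I : ℍ) (geo Γ g₀) ≤ _
      rw [this]
      positivity
  rw [hInt] at hlim
  obtain ⟨n, hn⟩ := (hlim.eventually (gt_mem_nhds h)).exists
  set w : ℝ := 1 / (n + 1) with hw
  have hw0 : 0 < w := by positivity
  -- uniform closeness
  have hunif : ∀ᶠ p : SL(2, ℝ) × ℝ in 𝓝 (g, v), ∀ t ∈ Icc 0 τ,
      dist ((p.1 * lM p.2 * aM t) • (I : ℍ)) (x t) < w :=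
    VCP_unif (fun p : (SL(2, ℝ) × ℝ) × ℝ => (p.1.1 * lM p.1.2 * aM p.2) • (I : ℍ)) VCP_cont (g, v) τ w hw0
  have hmap : Tendsto (fun z : (SL(2, ℝ) × ℝ) × ℝ => (z.1.1, z.2)) (𝓝 ((g, 0), v)) (𝓝 (g, v)) :=
    ((continuous_fst.comp continuous_fst).prodMk continuous_snd).tendsto _
  have hmap2 : Tendsto (fun z : (SL(2, ℝ) × ℝ) × ℝ => z.1.2) (𝓝 ((g, 0), v)) (𝓝 0) :=
    (continuous_snd.comp continuous_fst).tendsto _
  filter_upwards [hmap.eventually hunif, hmap2.eventually (gt_mem_nhds hw0)] with z hz hz2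
  refine (measure_mono ?_).trans_lt hn
  rintro t ⟨ht, ht2⟩
  refine ⟨ht, ?_⟩
  rw [Metric.mem_thickening_iff_infDist_lt hne] at ht2
  have h1 := hz t ht
  have h2 := Metric.infDist_le_infDist_add_dist (s := geo Γ g₀) (x := x t)
    (y := (z.1.1 * lM z.2 * aM t) • (I : ℍ))
  rw [dist_comm] at h1
  have h3 : (2 : ℝ) / (n + 1) = w + w := by rw [hw]; ring
  rw [h3]
  linarith

theorem VCP_card (m C₀ : ℕ) (hm : 1 ≤ m) (H : Set ℝ) (hH : H.encard ≤ C₀) (B : Finset ℕ)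
    (hB : B ⊆ Finset.range m) (h : ∀ k ∈ B, ∃ v ∈ Icc ((k : ℝ) / m) ((k + 1 : ℝ) / m), v ∈ H) :
    B.card ≤ 2 * C₀ := by
  classical
  have hm0 : (0 : ℝ) < m := by exact_mod_cast hm
  have hfin : H.Finite := Set.finite_of_encard_le_coe hH
  have hcard : hfin.toFinset.card ≤ C₀ := by
    rw [hfin.encard_eq_coe_toFinset_card] at hH
    exact_mod_cast hH
  have hsub : B ⊆ hfin.toFinset.biUnion fun v => {⌊v * m⌋₊, ⌊v * m⌋₊ - 1} := by
    intro k hk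
    obtain ⟨v, hv, hvH⟩ := h k hk
    rw [Finset.mem_biUnion]
    refine ⟨v, hfin.mem_toFinset.2 hvH, ?_⟩
    have h1 : (k : ℝ) ≤ v * m := (div_le_iff₀ hm0).1 hv.1
    have h2 : v * m ≤ k + 1 := (le_div_iff₀ hm0).1 hv.2
    have h3 : k ≤ ⌊v * m⌋₊ := Nat.le_floor h1
    have h4 : ⌊v * m⌋₊ ≤ k + 1 := by
      have := Nat.floor_le ((Nat.cast_nonneg k).trans h1)
      have h5 : ((⌊v * m⌋₊ : ℕ) : ℝ) ≤ ((k + 1 : ℕ) : ℝ) := by push_cast; linarith
      exact_mod_cast h5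
    rw [Finset.mem_insert, Finset.mem_singleton]
    omega
  calc B.card ≤ _ := Finset.card_le_card hsub
    _ ≤ hfin.toFinset.card * 2 := Finset.card_biUnion_le_card_mul _ _ _ fun v _ => Finset.card_le_two
    _ ≤ 2 * C₀ := by omega

theorem VCP_inv {Γ : Subgroup SL(2, ℝ)} {g₀ : SL(2, ℝ)}
    (hinv : ∀ (γ : Γ) (z : ℍ), γ • z ∈ geo Γ g₀ ↔ z ∈ geo Γ g₀) (γ : Γ) (w : ℝ) (z : ℍ)
    (hz : z ∈ Metric.thickening w (geo Γ g₀)) : γ • z ∈ Metric.thickening w (geo Γ g₀) := by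
  rw [Metric.mem_thickening_iff] at hz ⊢
  obtain ⟨x, hx, hd⟩ := hz
  refine ⟨γ • x, (hinv γ x).2 hx, ?_⟩
  rw [VCT_smul, VCT_smul, dist_smul]
  exact hd

theorem VCP : VCP_stmt := by
  intro Γ g₀ C₀ hΓ hCG hC m hm
  obtain ⟨hc, hne, hinv⟩ := VCL Γ g₀ hΓ hCG
  obtain ⟨K, hK, hKc⟩ := hΓ.cocompact
  set τ := Real.log (m : ℝ) with hτ
  have hm0 : (0 : ℝ) < m := by exact_mod_cast hm
  -- the property for `w` and `g`
  let Q : ℝ → SL(2, ℝ) → Prop := fun w g => ∀ B : Finset ℕ, B ⊆ Finset.range m →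
    (∀ k ∈ B, ∃ v ∈ Icc ((k : ℝ) / m) ((k + 1 : ℝ) / m), 1 ≤ volume (VCP_S Γ g₀ τ w g v)) → B.card ≤ 2 * C₀
  have hQ : ∀ g : SL(2, ℝ), ∀ᶠ z : ℝ × SL(2, ℝ) in 𝓝 (0, g), Q z.1 z.2 := by
    intro g
    have hk : ∀ k ∈ Finset.range m, ∀ᶠ q : SL(2, ℝ) × ℝ in 𝓝 (g, 0),
        (∃ v ∈ Icc ((k : ℝ) / m) ((k + 1 : ℝ) / m), v ∈ hit Γ g₀ g) ∨
        ∀ v ∈ Icc ((k : ℝ) / m) ((k + 1 : ℝ) / m), volume (VCP_S Γ g₀ τ q.2 q.1 v) < 1 := by
      intro k hk
      by_cases hex : ∃ v ∈ Icc ((k : ℝ) / m) ((k + 1 : ℝ) / m), v ∈ hit Γ g₀ g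
      · exact Eventually.of_forall fun _ => Or.inl hex
      · push Not at hex
        have := isCompact_Icc.eventually_forall_of_forall_eventually (x₀ := (g, (0 : ℝ)))
          (K := Icc ((k : ℝ) / m) ((k + 1 : ℝ) / m))
          (P := fun (q : SL(2, ℝ) × ℝ) (v : ℝ) => volume (VCP_S Γ g₀ τ q.2 q.1 v) < 1) (fun v hv => by
            refine VCP_loc hc hne τ g v ?_
            by_contra hcon
            push Not at hcon
            obtain ⟨γ, hγ⟩ := VMS Γ g₀ (g * lM v) τ hΓ (lt_of_lt_of_le one_pos hcon)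
            refine hex v hv ⟨⟨?_, ?_⟩, γ, ?_⟩
            · exact le_trans (by positivity) hv.1
            · refine hv.2.trans ?_
              rw [div_le_one hm0]
              have : k + 1 ≤ m := Finset.mem_range.1 hk
              exact_mod_cast this
            · rwa [← mul_assoc] at hγ)
        filter_upwards [this] with q hq
        exact Or.inr hq
    have hall : ∀ᶠ q : SL(2, ℝ) × ℝ in 𝓝 (g, 0), ∀ k ∈ Finset.range m,
        (∃ v ∈ Icc ((k : ℝ) / m) ((k + 1 : ℝ) / m), v ∈ hit Γ g₀ g) ∨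
        ∀ v ∈ Icc ((k : ℝ) / m) ((k + 1 : ℝ) / m), volume (VCP_S Γ g₀ τ q.2 q.1 v) < 1 :=
      (Filter.eventually_all_finset _).2 hk
    have hswap : Tendsto (fun z : ℝ × SL(2, ℝ) => (z.2, z.1)) (𝓝 (0, g)) (𝓝 (g, 0)) :=
      (continuous_snd.prodMk continuous_fst).tendsto _
    filter_upwards [hswap.eventually hall] with z hz B hB hv
    refine VCP_card m C₀ hm (hit Γ g₀ g) (hC g) B hB fun k hkB => ?_
    rcases hz k (hB hkB) with h1 | h1
    · exact h1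
    · exfalso
      obtain ⟨v, hv1, hv2⟩ := hv k hkB
      exact absurd (h1 v hv1) (not_lt.2 hv2)
  have hKK : IsCompact {g : SL(2, ℝ) | g • (I : ℍ) ∈ K} := isProperMap_smul_I.isCompact_preimage hK
  have hev : ∀ᶠ w : ℝ in 𝓝 0, ∀ g ∈ {g : SL(2, ℝ) | g • (I : ℍ) ∈ K}, Q w g :=
    hKK.eventually_forall_of_forall_eventually fun g _ => hQ g
  have hev2 : ∀ᶠ w : ℝ in 𝓝[>] 0, (∀ g ∈ {g : SL(2, ℝ) | g • (I : ℍ) ∈ K}, Q w g) ∧ 0 < w :=
    (hev.filter_mono nhdsWithin_le_nhds).and self_mem_nhdsWithin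
  obtain ⟨w, hw, hw0⟩ := hev2.exists
  refine ⟨w, hw0, fun g B hB hv => ?_⟩
  obtain ⟨γ, hγ⟩ := hKc (g • I)
  refine hw ((γ : SL(2, ℝ)) * g) ?_ B hB fun k hk => ?_
  · change ((γ : SL(2, ℝ)) * g) • (I : ℍ) ∈ K
    rw [mul_smul]
    exact hγ
  · obtain ⟨v, hv1, hv2⟩ := hv k hk
    refine ⟨v, hv1, hv2.trans (measure_mono ?_)⟩
    rintro t ⟨ht, ht2⟩
    refine ⟨ht, ?_⟩
    have := VCP_inv hinv γ w _ ht2
    rw [VCT_smul, ← mul_smul] at this
    have e : (γ : SL(2, ℝ)) * g * lM v * aM t = (γ : SL(2, ℝ)) * (g * lM v * aM t) := by group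
    rw [e]
    exact this

end Pool.Agent.RS
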