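import Pool.Agent.helper98.RS.SpecV

/-!
# MP_07c750: row VRG (2x2 matrices)
-/

open scoped MatrixGroups ContDiff Topology UpperHalfPlane
open UpperHalfPlane MeasureTheory Filter Set

set_option linter.unusedSimpArgs false

namespace Pool.Agent.RS

theorem VRG_a00 (t : ℝ) : (aM t).1 0 0 = Real.exp (t / 2) := by simp [aM]
theorem VRG_a01 (t : ℝ) : (aM t).1 0 1 = 0 := by simp [aM]
theorem VRG_a10 (t : ℝ) : (aM t).1 1 0 = 0 := by simp [aM]
theorem VRG_a11 (t : ℝ) : (aM t).1 1 1 = Real.exp (-(t / 2)) := by simp [aM]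
theorem VRG_l00 (t : ℝ) : (lM t).1 0 0 = 1 := by simp [lM]
theorem VRG_l01 (t : ℝ) : (lM t).1 0 1 = 0 := by simp [lM]
theorem VRG_l10 (t : ℝ) : (lM t).1 1 0 = t := by simp [lM]
theorem VRG_l11 (t : ℝ) : (lM t).1 1 1 = 1 := by simp [lM]

theorem VRG_mul (g h : SL(2, ℝ)) (i j : Fin 2) :
    (g * h).1 i j = g.1 i 0 * h.1 0 j + g.1 i 1 * h.1 1 j := by
  rw [Matrix.SpecialLinearGroup.coe_mul, Matrix.mul_apply, Fin.sum_univ_two]

theorem VRG_det (g : SL(2, ℝ)) : g.1 0 0 * g.1 1 1 - g.1 0 1 * g.1 1 0 = 1 := by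
  have := g.2
  rwa [Matrix.det_fin_two] at this

theorem VRG_ext {g h : SL(2, ℝ)} (h00 : g.1 0 0 = h.1 0 0) (h01 : g.1 0 1 = h.1 0 1)
    (h10 : g.1 1 0 = h.1 1 0) (h11 : g.1 1 1 = h.1 1 1) : g = h := by
  ext i j
  fin_cases i <;> fin_cases j
  · exact h00
  · exact h01
  · exact h10
  · exact h11

theorem VRG_coe (g : SL(2, ℝ)) (z : ℍ) : ((g • z : ℍ) : ℂ) =
    ((g.1 0 0 : ℂ) * z + (g.1 0 1 : ℂ)) / ((g.1 1 0 : ℂ) * z + (g.1 1 1 : ℂ)) := by
  have := coe_specialLinearGroup_apply g z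
  simpa using this

theorem VRG_aI (t : ℝ) : ((aM t • I : ℍ) : ℂ) = (Real.exp t : ℂ) * Complex.I := by
  rw [VRG_coe, VRG_a00, VRG_a01, VRG_a10, VRG_a11]
  have h1 : ((Real.exp (-(t / 2)) : ℝ) : ℂ) ≠ 0 := by
    exact_mod_cast (Real.exp_pos _).ne'
  have h2 : ((Real.exp (t / 2) : ℝ) : ℂ) = ((Real.exp t : ℝ) : ℂ) * ((Real.exp (-(t / 2)) : ℝ) : ℂ) := by
    rw [← Complex.ofReal_mul, ← Real.exp_add]
    congr 2
    ring
  rw [h2]
  simp only [Complex.ofReal_zero, zero_mul, zero_add, add_zero, coe_I]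
  field_simp

theorem VRG_re (h : SL(2, ℝ)) (t : ℝ) : ((h * aM t) • I : ℍ).re =
    (h.1 0 0 * h.1 1 0 * Real.exp t ^ 2 + h.1 0 1 * h.1 1 1) /
      ((h.1 1 0 * Real.exp t) ^ 2 + h.1 1 1 ^ 2) := by
  have e : ((h * aM t) • I : ℍ).re = (((h * aM t) • I : ℍ) : ℂ).re := rfl
  rw [e, mul_smul, VRG_coe, VRG_aI, Complex.div_re]
  simp only [Complex.add_re, Complex.mul_re, Complex.ofReal_re, Complex.ofReal_im, Complex.I_re,
    Complex.I_im, Complex.add_im, Complex.mul_im, Complex.normSq_apply]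
  have hD : (h.1 1 0 * Real.exp t) ^ 2 + h.1 1 1 ^ 2 ≠ 0 := by
    intro h0
    have h1 : h.1 1 0 * Real.exp t = 0 := by nlinarith [sq_nonneg (h.1 1 0 * Real.exp t), sq_nonneg (h.1 1 1)]
    have h2 : h.1 1 1 = 0 := by nlinarith [sq_nonneg (h.1 1 0 * Real.exp t), sq_nonneg (h.1 1 1)]
    have h3 : h.1 1 0 = 0 := by
      rcases mul_eq_zero.1 h1 with h3 | h3
      · exact h3
      · exact absurd h3 (Real.exp_pos t).ne'
    have := VRG_det h
    rw [h2, h3] at this
    simp at this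
  have hD' : h.1 1 0 * Real.exp t * (h.1 1 0 * Real.exp t) + h.1 1 1 * h.1 1 1 ≠ 0 := by
    intro h0; apply hD; rw [← h0]; ring
  ring_nf

theorem VRG_ax {h : SL(2, ℝ)} (h1 : h.1 0 0 * h.1 1 0 = 0) (h2 : h.1 0 1 * h.1 1 1 = 0) : AxP h := by
  have hd := VRG_det h
  rcases mul_eq_zero.1 h1 with h3 | h3
  · rcases mul_eq_zero.1 h2 with h4 | h4
    · rw [h3, h4] at hd; simp at hd
    · exact Or.inr ⟨h3, h4⟩
  · rcases mul_eq_zero.1 h2 with h4 | h4
    · exact Or.inl ⟨h4, h3⟩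
    · rw [h3, h4] at hd; simp at hd

theorem VRG_ax' {h : SL(2, ℝ)} (h0 : AxP h) : h.1 0 0 * h.1 1 0 = 0 ∧ h.1 0 1 * h.1 1 1 = 0 := by
  rcases h0 with ⟨h1, h2⟩ | ⟨h1, h2⟩
  · rw [h1, h2]; simp
  · rw [h1, h2]; simp

theorem VRG_cont {f : ℝ → SL(2, ℝ)} (h : ∀ i j, Continuous fun t => (f t).1 i j) : Continuous f := by
  refine continuous_induced_rng.2 ?_
  exact continuous_matrix h

theorem VRG : VRG_stmt := by
  refine ⟨fun t => ⟨?_, ?_⟩, ?_, ?_, ?_, ?_, ?_, ?_, ?_, ?_, ?_, ?_, ?_⟩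
  · have e : (aM t • I : ℍ).re = ((aM t • I : ℍ) : ℂ).re := rfl
    rw [e, VRG_aI]; simp
  · have e : (aM t • I : ℍ).im = ((aM t • I : ℍ) : ℂ).im := rfl
    rw [e, VRG_aI]
    simp [Complex.exp_ofReal_re]
  · intro h t t' htt h1 h2
    have key : ∀ s : ℝ, ((h * aM s) • I : ℍ).re = 0 →
        h.1 0 0 * h.1 1 0 * Real.exp s ^ 2 + h.1 0 1 * h.1 1 1 = 0 := by
      intro s hs
      rw [VRG_re] at hs
      rcases div_eq_zero_iff.1 hs with h3 | h3
      · exact h3
      · exfalso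
        have h1 : h.1 1 0 * Real.exp s = 0 := by
          nlinarith [sq_nonneg (h.1 1 0 * Real.exp s), sq_nonneg (h.1 1 1)]
        have h2 : h.1 1 1 = 0 := by
          nlinarith [sq_nonneg (h.1 1 0 * Real.exp s), sq_nonneg (h.1 1 1)]
        have h3 : h.1 1 0 = 0 := by
          rcases mul_eq_zero.1 h1 with h3 | h3
          · exact h3
          · exact absurd h3 (Real.exp_pos s).ne'
        have := VRG_det h
        rw [h2, h3] at this
        simp at this
    have k1 := key t h1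
    have k2 := key t' h2
    have hne : Real.exp t ^ 2 - Real.exp t' ^ 2 ≠ 0 := by
      intro h0
      have h3 : Real.exp t = Real.exp t' := by
        have := Real.exp_pos t
        have := Real.exp_pos t'
        nlinarith
      exact htt (Real.exp_injective h3)
    have h4 : h.1 0 0 * h.1 1 0 * (Real.exp t ^ 2 - Real.exp t' ^ 2) = 0 := by linarith
    have h5 : h.1 0 0 * h.1 1 0 = 0 := (mul_eq_zero.1 h4).resolve_right hne
    have h6 : h.1 0 1 * h.1 1 1 = 0 := by rw [h5] at k1; linarith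
    exact VRG_ax h5 h6
  · intro h t h0
    rw [VRG_re, (VRG_ax' h0).1, (VRG_ax' h0).2]
    simp
  · intro h h' h0 h0'
    rcases h0 with ⟨h1, h2⟩ | ⟨h1, h2⟩ <;> rcases h0' with ⟨h1', h2'⟩ | ⟨h1', h2'⟩
    · left; rw [VRG_mul, VRG_mul, h1, h2, h1', h2']; simp
    · right; rw [VRG_mul, VRG_mul, h1, h2, h1', h2']; simp
    · right; rw [VRG_mul, VRG_mul, h1, h2, h1', h2']; simp
    · left; rw [VRG_mul, VRG_mul, h1, h2, h1', h2']; simp
  · intro h h0
    have e : ∀ i j, (h⁻¹).1 i j = Matrix.adjugate h.1 i j := fun i j => by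
      rw [Matrix.SpecialLinearGroup.coe_inv]
    have e2 : Matrix.adjugate h.1 = !![h.1 1 1, -h.1 0 1; -h.1 1 0, h.1 0 0] := Matrix.adjugate_fin_two _
    unfold AxP
    simp only [e, e2]
    rcases h0 with ⟨h1, h2⟩ | ⟨h1, h2⟩
    · left; simp [h1, h2]
    · right; simp [h1, h2]
  · intro t
    exact Or.inl ⟨VRG_a01 t, VRG_a10 t⟩
  · intro s t
    apply VRG_ext
    · rw [VRG_mul, VRG_a00, VRG_a00, VRG_a00, VRG_a10, VRG_a01, ← Real.exp_add]
      rw [mul_zero, add_zero]; congr 1; ring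
    · rw [VRG_mul, VRG_a01, VRG_a01, VRG_a01]; simp
    · rw [VRG_mul, VRG_a10, VRG_a10, VRG_a10]; simp
    · rw [VRG_mul, VRG_a11, VRG_a11, VRG_a11, VRG_a10, VRG_a01, ← Real.exp_add]
      rw [mul_zero, zero_add]; congr 1; ring
  · intro u v
    apply VRG_ext <;> simp only [VRG_mul, VRG_l00, VRG_l01, VRG_l10, VRG_l11] <;> ring
  · intro v t
    have h1 : Real.exp (t / 2) = Real.exp (-(t / 2)) * Real.exp t := by
      rw [← Real.exp_add]; congr 1; ring
    apply VRG_ext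
    · simp only [VRG_mul, VRG_l00, VRG_l01, VRG_l10, VRG_l11, VRG_a00, VRG_a01, VRG_a10, VRG_a11]; ring
    · simp only [VRG_mul, VRG_l00, VRG_l01, VRG_l10, VRG_l11, VRG_a00, VRG_a01, VRG_a10, VRG_a11]; ring
    · simp only [VRG_mul, VRG_l00, VRG_l01, VRG_l10, VRG_l11, VRG_a00, VRG_a01, VRG_a10, VRG_a11]
      rw [h1]; ring
    · simp only [VRG_mul, VRG_l00, VRG_l01, VRG_l10, VRG_l11, VRG_a00, VRG_a01, VRG_a10, VRG_a11]; ring
  · intro h
    have hsub : {v : ℝ | AxP (h * lM v)} ⊆ {-(h.1 1 0) / h.1 1 1, -(h.1 0 0) / h.1 0 1} := by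
      intro v hv
      rcases hv with ⟨h1, h2⟩ | ⟨h1, h2⟩
      · rw [VRG_mul, VRG_l01, VRG_l11] at h1
        rw [VRG_mul, VRG_l00, VRG_l10] at h2
        left
        have hq : h.1 0 1 = 0 := by linarith
        have hd := VRG_det h
        rw [hq] at hd
        have hne : h.1 1 1 ≠ 0 := by
          intro h0; rw [h0] at hd; simp at hd
        rw [eq_div_iff hne]; linarith
      · rw [VRG_mul, VRG_l00, VRG_l10] at h1
        rw [VRG_mul, VRG_l01, VRG_l11] at h2
        right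
        have hq : h.1 1 1 = 0 := by linarith
        have hd := VRG_det h
        rw [hq] at hd
        have hne : h.1 0 1 ≠ 0 := by
          intro h0; rw [h0] at hd; simp at hd
        rw [mem_singleton_iff, eq_div_iff hne]; linarith
    refine (Set.encard_le_encard hsub).trans ((Set.encard_insert_le _ _).trans ?_)
    rw [Set.encard_singleton]
    norm_num
  · apply VRG_cont
    intro i j
    fin_cases i <;> fin_cases j
    · exact (Real.continuous_exp.comp (continuous_id.div_const 2)).congr fun t => (VRG_a00 t).symm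
    · exact continuous_const.congr fun t => (VRG_a01 t).symm
    · exact continuous_const.congr fun t => (VRG_a10 t).symm
    · exact (Real.continuous_exp.comp (continuous_id.div_const 2).neg).congr fun t => (VRG_a11 t).symm
  · apply VRG_cont
    intro i j
    fin_cases i <;> fin_cases j
    · exact continuous_const.congr fun t => (VRG_l00 t).symm
    · exact continuous_const.congr fun t => (VRG_l01 t).symm
    · exact continuous_id.congr fun t => (VRG_l10 t).symm
    · exact continuous_const.congr fun t => (VRG_l11 t).symm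

end Pool.Agent.RS
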